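import Pool.Agent.Helper60.ER.End

set_option autoImplicit false

namespace Pool.Agent.Results.MP_d28077_an.DensityAlephOne

open MeasureTheory

theorem result (T : Type) [MeasurableSpace T] (μ : Measure T) [IsFiniteMeasure μ]
    (hD : ∃ D : Set (Lp ℝ 1 μ), Dense D ∧ Cardinal.mk ↥D ≤ Cardinal.aleph 1) :
    ∃ (I : Type) (x : I → Lp ℝ 1 μ),
      (Submodule.span ℝ (Set.range x)).topologicalClosure = ⊤ ∧
      ∀ f : ℕ → I, Function.Injective f →
        ∃ π : Equiv.Perm ℕ, (∀ n, x (f (π n)) ≠ 0) ∧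
          ∀ (a : ℕ → ℝ) (m n : ℕ), m ≤ n →
            ‖∑ k ∈ Finset.range m, a k • x (f (π k))‖ ≤
              7 * ‖∑ k ∈ Finset.range n, a k • x (f (π k))‖ := by
  obtain ⟨I, x, h1, h2, h3⟩ := H60ER.er_set μ hD
  refine ⟨I, x, h1, fun f hf => ?_⟩
  obtain ⟨π, hπ⟩ := h3 f hf
  exact ⟨π, fun n => h2 _, hπ⟩

end Pool.Agent.Results.MP_d28077_an.DensityAlephOne
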